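import Pool.Agent.Helper5.KPA.StP

/-! # Project KP, module MLO: the lower bound -/

set_option autoImplicit false

namespace Pool.Agent.Helper51.KPA

open Pool.Agent.Helper5.KPA Pool.Agent.Helper52.KP MvPolynomial

section

variable {C : Cone} {r : ℕ} {F : ℕ → ℕ → Submodule ℂ (MvPolynomial (Fin C.m) ℂ)} {h : ℕ}
  {v : Fin h → QQ C.m → ℤ} {b : Fin h → ℕ}

theorem one_mem (hC : Good C) : (1 : QQ C.m) ∈ QR C 0 := by
  intro l
  rw [Polynomial.coeff_one]
  split_ifs
  · exact hC.one
  · exact (C.R 0).zero_mem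

theorem X_pow_mem (hC : Good C) (j : ℕ) : (Polynomial.X ^ j : QQ C.m) ∈ QR C 0 := by
  intro l
  rw [Polynomial.coeff_X_pow]
  split_ifs
  · exact hC.one
  · exact (C.R 0).zero_mem

theorem C_mem {a : ℕ} {f : MvPolynomial (Fin C.m) ℂ} (hf : f ∈ C.R a) :
    (Polynomial.C f : QQ C.m) ∈ QR C a := by
  intro l
  rw [Polynomial.coeff_C]
  split_ifs
  · exact hf
  · exact (C.R a).zero_mem

theorem F_le (hF : NF C r F) (k l : ℕ) : F k l ≤ C.R (C.n * r * k) := by
  rw [← hF.zero k]
  induction l with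
  | zero => exact le_rfl
  | succ l ih => exact (hF.anti k l).trans ih

theorem F_anti (hF : NF C r F) (k : ℕ) : Antitone (F k) :=
  antitone_nat_of_succ_le fun l => hF.anti k l

theorem v_X_pow (hC : Good C) (hV : VD C r F h v b) (i : Fin h) (j : ℕ) :
    v i (Polynomial.X ^ j) = -((j : ℤ) * b i) := by
  have h0 : C.n * r * 0 = 0 := by simp
  induction j with
  | zero =>
    have := hV.cst i 1 one_ne_zero
    rw [MvPolynomial.C_1, Polynomial.C_1] at this
    simpa using this
  | succ j ih =>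
    rw [pow_succ, hV.mul i 0 0 _ _ (h0 ▸ X_pow_mem hC j)
      (h0 ▸ (by simpa using X_pow_mem hC 1)) (pow_ne_zero _ Polynomial.X_ne_zero)
      Polynomial.X_ne_zero, ih, hV.tau]
    push_cast
    ring

theorem v_term (hC : Good C) (hF : NF C r F) (hV : VD C r F h v b) (i : Fin h) (K l j : ℕ)
    {f : MvPolynomial (Fin C.m) ℂ} (hf : f ∈ F K j) (hf0 : f ≠ 0) :
    ((j : ℤ) - l) * b i ≤ v i (Polynomial.C f * Polynomial.X ^ l) := by
  have h0 : C.n * r * 0 = 0 := by simp
  have hC0 : (Polynomial.C f : QQ C.m) ≠ 0 := by simpa using hf0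
  have e : ∀ t : ℕ, v i (Polynomial.C f * Polynomial.X ^ t) = v i (Polynomial.C f) - t * b i := by
    intro t
    rw [hV.mul i K 0 _ _ (C_mem (F_le hF K j hf)) (h0 ▸ X_pow_mem hC t) hC0
      (pow_ne_zero _ Polynomial.X_ne_zero), v_X_pow hC hV]
    ring
  have h1 : 0 ≤ v i (Polynomial.C f * Polynomial.X ^ j) := by
    refine hV.nonneg i K _ ?_ (mul_ne_zero hC0 (pow_ne_zero _ Polynomial.X_ne_zero))
    intro t
    rw [Polynomial.coeff_C_mul_X_pow]
    split_ifs with ht
    · exact ht ▸ hf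
    · exact (F K t).zero_mem
  rw [e] at h1 ⊢
  linarith

end

/-- **MLO**. -/
theorem hMLO (hMVV : StMVV) (hMSU : StMSU) (hMSH : StMSH) (hAGR : StAGR) : StMLO := by
  intro C hC r F hF h v b hV ℓ δ u hu q k hqk
  obtain ⟨-, -, -, L, hL⟩ := hAGR C hC r F hF
  obtain ⟨hmem, hfd, -⟩ := hMSU C hC r F hF h v b hV u (r * q) k (Nat.mul_le_mul_left r hqk)
  set K : ℕ := k - q with hK
  have hdeg : C.n * r * k - C.n * (r * q) = C.n * r * K := by
    rw [hK, Nat.mul_sub, ← mul_assoc]
  have hfdF : ∀ j, FiniteDimensional ℂ (F K j) := by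
    intro j
    have := hC.fd (C.n * r * K)
    exact Submodule.finiteDimensional_of_le (F_le hF K j)
  set g : ℕ → ℝ := fun j => (Module.finrank ℂ (F K j) : ℝ) with hg
  have hganti : Antitone g := by
    intro i j hij
    have := hfdF i
    change ((Module.finrank ℂ (F K j) : ℕ) : ℝ) ≤ ((Module.finrank ℂ (F K i) : ℕ) : ℝ)
    exact_mod_cast Submodule.finrank_mono (F_anti hF K hij)
  set x0 : ℝ := r * q * (1 - ℓ) with hx0
  obtain ⟨Λ, -, hΛ⟩ := hMSH g (K * L + 1) (r * q) x0 hganti (fun j => by positivity)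
    (fun j hj => by
      change ((Module.finrank ℂ (F K j) : ℕ) : ℝ) = 0
      rw [hL K j hj, finrank_bot, Nat.cast_zero])
  have h1 := hΛ Λ le_rfl
  -- the linear map
  set Jx : ℕ → ℕ := fun l => ⌈(l : ℝ) + x0⌉₊ with hJx
  let Φ : ((i : Fin Λ) → F K (Jx (r * q + i))) →ₗ[ℂ] QQ C.m :=
    ∑ i : Fin Λ, (((Polynomial.monomial (r * q + i)).restrictScalars ℂ).comp
      (F K (Jx (r * q + i))).subtype).comp (LinearMap.proj i)
  have hΦ : ∀ f, Φ f = ∑ i : Fin Λ, Polynomial.monomial (r * q + i) (f i : MvPolynomial _ ℂ) := by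
    intro f
    simp only [Φ, LinearMap.sum_apply]
    rfl
  have hcoef : ∀ f (i : Fin Λ), (Φ f).coeff (r * q + i) = f i := by
    intro f i
    rw [hΦ, Polynomial.finsetSum_coeff, Finset.sum_eq_single i]
    · rw [Polynomial.coeff_monomial, if_pos rfl]
    · intro j _ hj
      rw [Polynomial.coeff_monomial, if_neg]
      intro he
      exact hj (Fin.ext (by omega))
    · intro hi
      exact absurd (Finset.mem_univ i) hi
  have hcoef' : ∀ f l, (∀ i : Fin Λ, r * q + (i : ℕ) ≠ l) → (Φ f).coeff l = 0 := by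
    intro f l hl
    rw [hΦ, Polynomial.finsetSum_coeff]
    refine Finset.sum_eq_zero fun i _ => ?_
    rw [Polynomial.coeff_monomial, if_neg (hl i)]
  have hinj : Function.Injective Φ := by
    intro f f' hff
    funext i
    apply Subtype.ext
    rw [← hcoef f i, ← hcoef f' i, hff]
  have hin : ∀ f, Φ f ∈ MM C r v u (r * q) k := by
    intro f
    rw [hmem]
    have hQ : ∀ i : Fin Λ, (Polynomial.monomial (r * q + i) (f i : MvPolynomial _ ℂ) : QQ C.m)
        ∈ QR C (C.n * r * K) := by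
      intro i l
      rw [Polynomial.coeff_monomial]
      split_ifs
      · exact F_le hF K _ (f i).2
      · exact (C.R _).zero_mem
    have hQ' : Φ f ∈ QR C (C.n * r * K) := by
      rw [hΦ]
      exact Submodule.sum_mem _ fun i _ => hQ i
    refine ⟨?_, ?_, ?_⟩
    · rw [hdeg]
      exact hQ'
    · intro l hl
      exact hcoef' f l fun i hi => by omega
    · intro hne i
      have hval : Φ f ∈ QR C (C.n * r * K) ∧ (Φ f ≠ 0 → x0 * b i ≤ (v i (Φ f) : ℝ)) := by
        rw [hΦ]
        refine Finset.sum_induction _ (fun y : QQ C.m => y ∈ QR C (C.n * r * K) ∧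
          (y ≠ 0 → x0 * b i ≤ (v i y : ℝ))) ?_ ?_ ?_
        · rintro y y' ⟨hy, hyv⟩ ⟨hy', hyv'⟩
          refine ⟨Submodule.add_mem _ hy hy', fun hs => ?_⟩
          by_cases hy0 : y = 0
          · rw [hy0, zero_add] at hs ⊢
            exact hyv' hs
          · by_cases hy0' : y' = 0
            · rw [hy0', add_zero] at hs ⊢
              exact hyv hs
            · have h2 := hV.add i K y y' hy hy' hy0 hy0' hs
              have h3 : ((min (v i y) (v i y') : ℤ) : ℝ) ≤ (v i (y + y') : ℝ) := by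
                exact_mod_cast h2
              have h4 := hyv hy0
              have h5 := hyv' hy0'
              rw [Int.cast_min] at h3
              exact (le_min h4 h5).trans h3
        · exact ⟨Submodule.zero_mem _, fun hs => absurd rfl hs⟩
        · intro t _
          refine ⟨hQ t, fun hs => ?_⟩
          have hft : (f t : MvPolynomial (Fin C.m) ℂ) ≠ 0 := by
            intro h0
            apply hs
            rw [h0, Polynomial.monomial_zero_right]
          have h2 := v_term hC hF hV i K (r * q + t) (Jx (r * q + t)) (f t).2 hft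
          rw [Polynomial.C_mul_X_pow_eq_monomial] at h2
          have h3 : (((Jx (r * q + t) : ℕ) : ℝ) - ((r * q + t : ℕ) : ℝ)) * b i ≤
              (v i (Polynomial.monomial (r * q + t) (f t : MvPolynomial _ ℂ)) : ℝ) := by
            exact_mod_cast h2
          have h4 : ((r * q + t : ℕ) : ℝ) + x0 ≤ (Jx (r * q + t) : ℝ) := Nat.le_ceil _
          refine le_trans (mul_le_mul_of_nonneg_right ?_ (Nat.cast_nonneg _)) h3
          linarith
      have hr : (Φ f) ≠ 0 := hne
      have h2 := hval.2 hr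
      have h3 := (hMVV C hC r F hF h v b hV i).2.2.1 K (Φ f) hQ' hr
      rw [h3]
      have h4 := hu.upp i
      have h5 : (1 : ℝ) ≤ b i := by exact_mod_cast hV.bpos i
      have h6 : ((((r * q : ℕ) : ℤ) * v i (u ^ r) : ℤ) : ℝ) ≤ (((r : ℤ) * v i (Φ f) : ℤ) : ℝ) := by
        push_cast
        have hr0 : (0 : ℝ) ≤ r := Nat.cast_nonneg _
        have hq0 : (0 : ℝ) ≤ q := Nat.cast_nonneg _
        have e1 : (r : ℝ) * q * v i (u ^ r) ≤ r * q * (r - r * ℓ * b i) :=
          mul_le_mul_of_nonneg_left h4 (by positivity)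
        have e2 : (r : ℝ) * q * (r - r * ℓ * b i) ≤ r * q * (r * b i - r * ℓ * b i) := by
          refine mul_le_mul_of_nonneg_left ?_ (by positivity)
          nlinarith
        have e3 : (r : ℝ) * (x0 * b i) ≤ r * v i (Φ f) := mul_le_mul_of_nonneg_left h2 hr0
        have e4 : (r : ℝ) * q * (r * b i - r * ℓ * b i) = r * (x0 * b i) := by
          rw [hx0]
          ring
        linarith
      exact_mod_cast h6
  have hdim : ∑ i : Fin Λ, Module.finrank ℂ (F K (Jx (r * q + i))) ≤
      Module.finrank ℂ (MM C r v u (r * q) k) := by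
    have e1 : Module.finrank ℂ ((i : Fin Λ) → F K (Jx (r * q + i))) =
        ∑ i : Fin Λ, Module.finrank ℂ (F K (Jx (r * q + i))) := by
      have := fun i : Fin Λ => hfdF (Jx (r * q + i))
      exact Module.finrank_pi_fintype ℂ
    rw [← e1]
    exact LinearMap.finrank_le_finrank_of_injective (f := Φ.codRestrict _ hin)
      (fun x y hxy => hinj (congrArg Subtype.val hxy))
  have hsum : ∑ l ∈ Finset.Ico (r * q) (r * q + Λ), g ⌈(l : ℝ) + x0⌉₊ =
      ∑ i : Fin Λ, (Module.finrank ℂ (F K (Jx (r * q + i))) : ℝ) := by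
    rw [Finset.sum_Ico_eq_sum_range, Nat.add_sub_cancel_left, Finset.sum_range]
  have hg0 : g 0 = Module.finrank ℂ (RD C r K) := by
    change ((Module.finrank ℂ (F K 0) : ℕ) : ℝ) = _
    rw [hF.zero K]
    rfl
  rw [hsum, hg0] at h1
  have h2 : (∑ i : Fin Λ, (Module.finrank ℂ (F K (Jx (r * q + i))) : ℝ)) ≤
      (Module.finrank ℂ (MM C r v u (r * q) k) : ℝ) := by exact_mod_cast hdim
  unfold dM wF
  have h3 : (((r * q : ℕ) : ℝ) + x0) = r * q * (2 - ℓ) := by
    rw [hx0]
    push_cast
    ring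
  rw [h3] at h1
  exact h1.trans h2

end Pool.Agent.Helper51.KPA
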